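import Pool.Agent.H262.QS.T12

/-!
# Solutions of the wave equation on a square which are positive on a quarter for a long time

For every `T < 2 √2 l` there is a continuous solution of finite energy of the wave equation on the square
`(0, 2l)²` with Dirichlet boundary conditions which is positive on the quarter `(0, l)²` for all times
in `[0, T]`; it does not even depend on the time there. (The first mode gives only `T < √2 l`.)

The solution has the initial velocity zero at the time `T / 2` and the potential of a charge near the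
corner `(2l, 2l)` as its initial position; by the finite speed of propagation it is equal to this potential
on the quarter for times `|t - T / 2| < dist((l, l), (2l, 2l)) = √2 l`.
-/

set_option autoImplicit false
open MeasureTheory

namespace Pool.Agent.Results.MP_71a28e_an.StaticOnTheQuarter

open Pool.Agent.H262.QS

/-- **Main theorem.** For every `l > 0` and `T < 2 √2 l` there is a solution `F` of finite energy of the wave
equation on the square `(0, 2l)²` with Dirichlet boundary conditions (for every `t` the function `F t` is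
square integrable on the square, and its coefficients for the sines `sin((m + 1)πx₁/2l) sin((n + 1)πx₂/2l)`
are `a m n cos(ω t) + b m n sin(ω t)` with `ω = π/(2l) √((m + 1)² + (n + 1)²)`, where the energy
`∑ ((m + 1)² + (n + 1)²) (a m n ² + b m n ²)` is finite), which is continuous on `ℝ × ℝ²` and is positive and
independent of the time on `[0, T] × (0, l)²`. -/
theorem result :
    ∀ l : ℝ, 0 < l → ∀ T : ℝ, T < 2 * Real.sqrt 2 * l →
      ∃ a b : ℕ → ℕ → ℝ, ∃ F : ℝ → ℝ × ℝ → ℝ,
        Summable (fun p : ℕ × ℕ =>
          (((p.1 : ℝ) + 1) ^ 2 + ((p.2 : ℝ) + 1) ^ 2) * (a p.1 p.2 ^ 2 + b p.1 p.2 ^ 2)) ∧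
        (∀ t : ℝ,
          MemLp (F t) 2 (volume.restrict (Set.Ioo (0 : ℝ) (2 * l) ×ˢ Set.Ioo (0 : ℝ) (2 * l))) ∧
          ∀ m n : ℕ,
            ∫ x in Set.Ioo (0 : ℝ) (2 * l) ×ˢ Set.Ioo (0 : ℝ) (2 * l),
                F t x * Real.sin (((m : ℝ) + 1) * Real.pi * x.1 / (2 * l))
                  * Real.sin (((n : ℝ) + 1) * Real.pi * x.2 / (2 * l))
              = l ^ 2 *
                (a m n * Real.cos (Real.pi / (2 * l)
                    * Real.sqrt (((m : ℝ) + 1) ^ 2 + ((n : ℝ) + 1) ^ 2) * t)
                  + b m n * Real.sin (Real.pi / (2 * l)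
                    * Real.sqrt (((m : ℝ) + 1) ^ 2 + ((n : ℝ) + 1) ^ 2) * t))) ∧
        Continuous (fun p : ℝ × (ℝ × ℝ) => F p.1 p.2) ∧
        ∀ t ∈ Set.Icc (0 : ℝ) T, ∀ x ∈ Set.Ioo (0 : ℝ) l ×ˢ Set.Ioo (0 : ℝ) l,
          0 < F t x ∧ F t x = F 0 x := by
  intro l hl T hT
  obtain ⟨δ, h1, h2, h3⟩ := main_T l hl T hT
  obtain ⟨a, b, h4, h5, h6⟩ := main_delta l hl T δ h1 h2 h3
  exact ⟨a, b, ff δ l T, h4, h5, continuous_ff δ l T, h6⟩

end Pool.Agent.Results.MP_71a28e_an.StaticOnTheQuarter
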